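import Pool.Agent.N922.PQ.Lat

/-!
# Project PQ: the characteristic polynomial of the multiplication by `θ` (`S_CHI`) and isotropic first
vectors (`S_NZ`)
-/

set_option autoImplicit false
set_option linter.all false

open Polynomial Matrix

namespace Pool.Agent.N738.PQ

open Pool.Agent.N922.PQ
open Pool.Agent.N874.PP (Tup chA chB)

section co

variable {L : Type} [Field L] [CharZero L] {a b : ℤ} {θ : L}

theorem repr_eq (h : IsCub a b θ) (r s t : ℚ) :
    h.basis.repr ((r : L) + (s : L) * θ + (t : L) * θ ^ 2) =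
      Finsupp.single 0 r + Finsupp.single 1 s + Finsupp.single 2 t := by
  have e : (r : L) + (s : L) * θ + (t : L) * θ ^ 2 =
      r • h.basis 0 + s • h.basis 1 + t • h.basis 2 := by
    rw [h.basis_apply, h.basis_apply, h.basis_apply]
    simp [Pool.Agent.N922.PQ.vec, Rat.smul_def]
  rw [e, map_add, map_add, map_smul, map_smul, map_smul, Module.Basis.repr_self,
    Module.Basis.repr_self, Module.Basis.repr_self]
  simp

theorem co0_eq (h : IsCub a b θ) (r s t : ℚ) :
    h.co 0 ((r : L) + (s : L) * θ + (t : L) * θ ^ 2) = r := by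
  simp only [IsCub.co, Module.Basis.coord_apply, repr_eq]
  simp

theorem co1_eq (h : IsCub a b θ) (r s t : ℚ) :
    h.co 1 ((r : L) + (s : L) * θ + (t : L) * θ ^ 2) = s := by
  simp only [IsCub.co, Module.Basis.coord_apply, repr_eq]
  simp

theorem co2_eq (h : IsCub a b θ) (r s t : ℚ) :
    h.co 2 ((r : L) + (s : L) * θ + (t : L) * θ ^ 2) = t := by
  simp only [IsCub.co, Module.Basis.coord_apply, repr_eq]
  simp

theorem co_theta (h : IsCub a b θ) (z : L) : h.co 2 (θ * z) = h.co 1 z := by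
  obtain ⟨r, s, t, rfl⟩ := h.gen z
  have hroot := h.root
  have e : θ * ((r : L) + (s : L) * θ + (t : L) * θ ^ 2) =
      ((- t * (b : ℚ) : ℚ) : L) + ((r - t * (a : ℚ) : ℚ) : L) * θ + (s : L) * θ ^ 2 := by
    push_cast
    linear_combination (t : L) * hroot
  rw [e, co2_eq, co1_eq]

theorem det_one (h : IsCub a b θ) (x : ℚ) :
    Algebra.norm ℚ ((x : L) - θ) = x ^ 3 + (a : ℚ) * x + (b : ℚ) := by
  have hroot := h.root
  rw [Algebra.norm_eq_matrix_det h.basis, Matrix.det_fin_three]
  have c0 : h.basis.repr (((x : L) - θ) * h.basis 0) =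
      Finsupp.single 0 x + Finsupp.single 1 (-1) + Finsupp.single 2 0 := by
    rw [← repr_eq h, h.basis_apply]
    congr 1
    simp [Pool.Agent.N922.PQ.vec]; ring
  have c1 : h.basis.repr (((x : L) - θ) * h.basis 1) =
      Finsupp.single 0 0 + Finsupp.single 1 x + Finsupp.single 2 (-1) := by
    rw [← repr_eq h, h.basis_apply]
    congr 1
    simp [Pool.Agent.N922.PQ.vec]; ring
  have c2 : h.basis.repr (((x : L) - θ) * h.basis 2) =
      Finsupp.single 0 (b : ℚ) + Finsupp.single 1 (a : ℚ) + Finsupp.single 2 x := by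
    rw [← repr_eq h, h.basis_apply]
    congr 1
    simp [Pool.Agent.N922.PQ.vec]
    linear_combination -hroot
  simp only [Algebra.leftMulMatrix_eq_repr_mul, c0, c1, c2]
  simp
  ring

end co

/-- **The characteristic polynomial of the multiplication by `θ` in a normalised basis.** -/
theorem chi : S_CHI := by
  intro L _ _ a b θ h α e hα he hJ B hB
  -- the basis
  let f : Module.Basis (Fin 3) ℚ L := basisOfLinearIndependentOfCardEqFinrank he
    (by rw [h.rank]; rfl)
  have hf : ∀ i, f i = e i := fun i => by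
    simp [f, coe_basisOfLinearIndependentOfCardEqFinrank]
  -- the matrix of the multiplication by `θ`
  let T : Fin 3 → Fin 3 → ℚ := fun i j => f.repr (θ * e j) i
  have hT : ∀ j, θ * e j = T 0 j • e 0 + T 1 j • e 1 + T 2 j • e 2 := by
    intro j
    have := f.sum_repr (θ * e j)
    rw [Fin.sum_univ_three, hf, hf, hf] at this
    exact this.symm
  have hBT : ∀ j l, (B j l : ℚ) = T 0 j * (JJ 0 l : ℚ) + T 1 j * (JJ 1 l : ℚ)
      + T 2 j * (JJ 2 l : ℚ) := by
    intro j l
    rw [← hB, ← co_theta, ← hJ, ← hJ, ← hJ]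
    have e1 : θ * (e j * e l / α) = T 0 j • (e 0 * e l / α) + T 1 j • (e 1 * e l / α) +
        T 2 j • (e 2 * e l / α) := by
      have e2 : θ * (e j * e l / α) = (θ * e j) * (e l / α) := by ring
      rw [e2, hT j]
      simp only [Rat.smul_def]
      ring
    rw [e1]
    simp only [map_add, map_smul, smul_eq_mul]
  have hsym : ∀ i j, (B i j : ℚ) = B j i := by
    intro i j
    rw [← hB, ← hB, mul_comm (e i) (e j)]
  have T0 : ∀ j, T 0 j = B j 2 := by intro j; rw [hBT]; simp [JJ]
  have T1 : ∀ j, T 1 j = B j 1 := by intro j; rw [hBT]; simp [JJ]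
  have T2 : ∀ j, T 2 j = B j 0 := by intro j; rw [hBT]; simp [JJ]
  -- the determinants
  have hdet : ∀ x : ℚ, Algebra.norm ℚ ((x : L) - θ) =
      (x - T 0 0) * ((x - T 1 1) * (x - T 2 2) - T 1 2 * T 2 1)
      + T 0 1 * (-T 1 0 * (x - T 2 2) - T 1 2 * T 2 0)
      - T 0 2 * (T 1 0 * T 2 1 + (x - T 1 1) * T 2 0) := by
    intro x
    rw [Algebra.norm_eq_matrix_det f, Matrix.det_fin_three]
    have c : ∀ i j, Algebra.leftMulMatrix f ((x : L) - θ) i j =
        (if i = j then x else 0) - T i j := by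
      intro i j
      rw [Algebra.leftMulMatrix_eq_repr_mul, sub_mul, map_sub, Finsupp.sub_apply, hf,
        ← Rat.smul_def, map_smul, ← hf, Module.Basis.repr_self, hf]
      simp only [T, Finsupp.smul_apply, smul_eq_mul]
      congr 1
      by_cases hij : i = j
      · subst hij; simp
      · rw [if_neg hij, Finsupp.single_eq_of_ne (by simpa using hij)]; simp
    simp only [c]
    simp
    ring
  have d0 := (hdet 0).symm.trans (det_one h 0)
  have d1 := (hdet 1).symm.trans (det_one h 1)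
  have d2 := (hdet (-1)).symm.trans (det_one h (-1))
  simp only [T0, T1, T2] at d0 d1 d2
  rw [hsym 1 0, hsym 2 0, hsym 2 1] at d0 d1 d2
  have t0 : (B 1 1 : ℚ) = -2 * B 0 2 := by
    linear_combination (2 * d0 - d1 - d2) / 2
  have t0' : B 1 1 = -2 * B 0 2 := by exact_mod_cast t0
  refine ⟨t0', ?_, ?_⟩
  · simp only [chA]
    have h1 : ((-3 * B 0 2 ^ 2 - 2 * B 0 1 * B 1 2 - B 0 0 * B 2 2 : ℤ) : ℚ) = a := by
      push_cast
      rw [t0] at d0 d1 d2
      linear_combination (d1 - d2) / 2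
    exact_mod_cast h1
  · simp only [chB]
    have h1 : ((2 * B 0 2 ^ 3 + 2 * B 0 2 * B 0 1 * B 1 2 - B 0 0 * B 1 2 ^ 2 -
        B 2 2 * B 0 1 ^ 2 - 2 * B 0 2 * B 0 0 * B 2 2 : ℤ) : ℚ) = b := by
      push_cast
      rw [t0] at d0
      linear_combination d0
    exact_mod_cast h1

/-- **Isotropic first vectors.** -/
theorem nz : S_NZ := by
  intro L _ _ a b θ h α x hα hx hN h2 h1
  obtain ⟨r, s, t, hr⟩ := h.gen (x * x / α)
  rw [hr, co2_eq] at h2
  rw [hr, co1_eq] at h1
  rw [h1, h2] at hr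
  simp only [Rat.cast_zero, zero_mul, add_zero] at hr
  have hr0 : r ≠ 0 := by
    rintro rfl
    rw [Rat.cast_zero, div_eq_zero_iff, mul_self_eq_zero] at hr
    rcases hr with hr | hr
    · exact hx hr
    · exact hα hr
  have hrL : (r : L) ≠ 0 := by exact_mod_cast hr0
  have hx2 : x * x = (r : L) * α := by
    rw [← hr]
    field_simp
  obtain ⟨y, hy⟩ := hN
  have hn : Algebra.norm ℚ x * Algebra.norm ℚ x = r ^ 3 * (y * y) := by
    rw [← map_mul, hx2, map_mul, hy]
    congr 1
    have h3 : (r : L) = algebraMap ℚ L r := (eq_ratCast (algebraMap ℚ L) r).symm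
    rw [h3, Algebra.norm_algebraMap, h.rank]
  have hnx : Algebra.norm ℚ x ≠ 0 := by
    rw [Algebra.norm_ne_zero_iff]
    exact hx
  have hy0 : y ≠ 0 := by
    rintro rfl
    rw [mul_zero, mul_zero, mul_self_eq_zero] at hn
    exact hnx hn
  obtain ⟨c, hc⟩ : ∃ c : ℚ, c = Algebra.norm ℚ x / (r * y) := ⟨_, rfl⟩
  have hc2 : c * c = r := by
    rw [hc]
    field_simp
    linear_combination hn
  have hc0 : c ≠ 0 := by
    rintro rfl
    rw [mul_zero] at hc2
    exact hr0 hc2.symm
  have hcL : (c : L) ≠ 0 := by exact_mod_cast hc0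
  refine ⟨x / (c : L), ?_⟩
  have hc2L : (c : L) * c = r := by exact_mod_cast congrArg (fun q : ℚ => (q : L)) hc2
  rw [div_mul_div_comm, hx2, hc2L]
  field_simp

end Pool.Agent.N738.PQ
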